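import Pool.Agent.Q50.GM.Defs

/-!
# Modularity of elliptic curves over imaginary quadratic fields: data and known facts
-/

set_option autoImplicit false

universe u

open NumberField

namespace Pool.Agent.Q50.ES.GE

open GM (StronglyIrreducible IsCharacter)

/-- `F` is a CM field. -/
def CMField (F : Fld) : Prop := FiniteDimensional ℚ F ∧ IsCMField F

/-- `F` is an imaginary quadratic field. -/
def ImaginaryQuadratic (F : Fld) : Prop := CMField F ∧ Module.finrank ℚ F = 2

/-- `L` is a cyclic extension of prime degree of `F`, both are CM fields. -/
def CyclicStep (F L : Fld) : Prop :=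
  CMField F ∧ CMField L ∧ FiniteGalois F L ∧
    (L.fixingSubgroup.relIndex F.fixingSubgroup).Prime

/-- There is a chain `F = F₀ ⊆ F₁ ⊆ ... ⊆ F_n = L` of CM fields, each one cyclic of prime degree over the
preceding one. -/
def Tower : Fld → Fld → Prop := Relation.ReflTransGen CyclicStep

variable (K : Type u) [Field K] [TopologicalSpace K]

/-- Elliptic curves and automorphic representations over CM fields; `K` is an algebraic closure of `ℚ_ℓ`
for a fixed prime `ℓ`, identified with `ℂ` as a field. `EC F`: the elliptic curves over the number field
`F`; `rep A`: the representation of `Gal(Ω/F)` on `V_ℓ(A) ⊗ K`; `CM A`: `A` has complex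
multiplication over `Ω`; `CMBase A`: it has complex multiplication by an order in `F`. `Form F`, `F` a
CM field: the cuspidal automorphic representations of `GL₂` over `F` of weight 2, of any level, with any
central character (none if `F` is not a CM field); `gal f`: the Galois representation of `f` (Harris,
Lan, Taylor, Thorne; Scholze); `Modular A`: for a CM field `F`, some `f` with trivial central character
over `F` has the same `L`-function as `A`. `place L`: the finite places of `L`; `norm w`: the number
of elements of the residue field of `w`; `frob w`: a Frobenius element of `w` in `Gal(Ω/L)`. -/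
structure Data where
  /-- elliptic curves -/
  EC : Fld → Type u
  /-- the Galois representation -/
  rep : ∀ {F}, EC F → Rep K F
  /-- potential complex multiplication -/
  CM : ∀ {F}, EC F → Prop
  /-- complex multiplication by an order in the base field -/
  CMBase : ∀ {F}, EC F → Prop
  /-- automorphic representations -/
  Form : Fld → Type u
  /-- the Galois representation -/
  gal : ∀ {F}, Form F → Rep K F
  /-- the elliptic curve is modular -/
  Modular : ∀ {F}, EC F → Prop
  /-- the finite places -/
  place : Fld → Type
  /-- the norm -/
  norm : ∀ {L}, place L → ℕ
  /-- a Frobenius element -/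
  frob : ∀ {L}, place L → Γ

variable {K}

namespace Data

variable (T : Data K)

/-- The finite places of `L` for which the Frobenius traces of `A` and `f` have the same `m`-th power. -/
def Agree {F L : Fld} (A : T.EC F) (f : T.Form L) (m : ℕ) : Set (T.place L) :=
  {w | ((T.rep A).toFun (T.frob w)).trace ^ m = ((T.gal f).toFun (T.frob w)).trace ^ m}

/-- For some `L` at the end of a tower of CM fields over `F`, some `f` of weight 2 over `L` and some
`m ≥ 1` the Frobenius traces of `A` and `f` have the same `m`-th power for a set of places of `L` of
positive upper density. -/
def Approximated {F : Fld} (A : T.EC F) : Prop :=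
  ∃ L, Tower F L ∧ ∃ f : T.Form L, ∃ m : ℕ, 0 < m ∧ PositiveUpperDensity T.norm (T.Agree A f m)

/-- Known (Serre): the representation of an elliptic curve without complex multiplication is
irreducible on every open subgroup. -/
def Irreducible : Prop := ∀ (F : Fld) (A : T.EC F), ¬ T.CM A → StronglyIrreducible (T.rep A)

/-- Known: twists by characters of finite order. -/
def Twist : Prop :=
  ∀ (F L : Fld) (f : T.Form F) (χ : Γ → K), FiniteGalois F L → IsCharacter F L χ →
    ∃ f' : T.Form F, ConjOn (Gal F) (fun g => χ g • (T.gal f).toFun g) (T.gal f').toFun

/-- Known (Langlands): let `L` be a cyclic extension of prime degree of `F`, both CM fields. If the Galois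
representation of `f` over `L` is isomorphic to its conjugates under `Gal(Ω/F)`, then `f` is the base
change of some `f'` over `F`. -/
def CyclicDescent : Prop :=
  ∀ (F L : Fld) (f : T.Form L), CyclicStep F L →
    (∀ g ∈ Gal F, ConjOn (Gal L) (T.gal f).toFun fun h => (T.gal f).toFun (g * h * g⁻¹)) →
    ∃ f' : T.Form F, Iso L (T.gal f') (T.gal f)

/-- Known (algebraic Chebotarev density theorem, Rajan): if the traces on the representations of `A` and
`f` have the same `m`-th power for a set of places of `L` of positive upper density, then they agree up
to one `m`-th root of unity on a coset of an open subgroup. (Their `m`-th powers agree on a component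
`C` of the Zariski closure of the image; so for some `ζ` the traces agree on `C` up to `ζ`.) -/
def Chebotarev : Prop :=
  ∀ (F L : Fld) (A : T.EC F) (f : T.Form L) (m : ℕ), F ≤ L → 0 < m →
    PositiveUpperDensity T.norm (T.Agree A f m) → ∃ L', FiniteGalois L L' ∧
      ∃ ζ : K, ζ ^ m = 1 ∧ ∃ g ∈ Gal L, ∀ x ∈ Gal L',
        ((T.rep A).toFun (g * x)).trace = ζ * ((T.gal f).toFun (g * x)).trace

/-- The known facts. `known`: over an imaginary quadratic field `F`, elliptic curves with complex
multiplication by an order in another field are modular (Hecke, Deuring, Jacquet-Langlands).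
`modular` (Faltings, strong multiplicity one, local-global compatibility: Mok, Varma): `A` over a CM
field `F` is modular if and only if `V_ℓ(A) ⊗ K ≅ gal f` for some `f` over `F`. -/
structure Facts : Prop where
  irreducible : T.Irreducible
  twist : T.Twist
  descent : T.CyclicDescent
  chebotarev : T.Chebotarev
  frob_mem : ∀ (L : Fld) (w : T.place L), T.frob w ∈ Gal L
  base : ∀ (F : Fld) (A : T.EC F), T.CMBase A → T.CM A
  known : ∀ (F : Fld) (A : T.EC F), ImaginaryQuadratic F → T.CM A → ¬ T.CMBase A → T.Modular A
  modular : ∀ (F : Fld) (A : T.EC F), CMField F →
    (T.Modular A ↔ ∃ f : T.Form F, Iso F (T.rep A) (T.gal f))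

end Data

end Pool.Agent.Q50.ES.GE
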