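import Pool.Agent.Q50.GE.Defs
import Pool.Agent.Q50.GM.Main

/-!
# Modularity of elliptic curves from a positive proportion of the places over a tower of CM fields
-/

set_option autoImplicit false
set_option maxHeartbeats 4000000
set_option synthInstance.maxHeartbeats 400000
set_option linter.unusedSectionVars false

universe u

open NumberField Matrix

namespace Pool.Agent.Q50.ES.GE

open GM (StronglyIrreducible IsCharacter twist_of_iso resRep conjOn_symm)

variable {K : Type u} [Field K] [TopologicalSpace K] [IsTopologicalRing K] [T1Space K]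

/-- If the traces agree on a coset of `Gal(Ω/L)` up to a factor and the first representation is
irreducible there, the representations are isomorphic on `Gal(Ω/L)`. -/
theorem iso_of_trace_coset' {F F' L : Fld} (r : Rep K F) (s : Rep K F') (h : Gal L ⊆ Gal F)
    (h' : Gal L ⊆ Gal F') (hspan : ∀ m, m ∈ Submodule.span K {t | ∃ x ∈ Gal L, t = r.toFun x})
    {g : Γ} (hg : g ∈ Gal F) (hg' : g ∈ Gal F') (ζ : K)
    (htr : ∀ x ∈ Gal L, (r.toFun (g * x)).trace = ζ * (s.toFun (g * x)).trace) : Iso L r s := by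
  obtain ⟨P, hP⟩ := conj_of_trace_coset (pairs r s h h') (c := r.toFun g) (d := ζ • s.toFun g)
    (c' := r.toFun g⁻¹) (by
      intro m
      refine Submodule.span_mono ?_ (hspan m)
      rintro _ ⟨x, hx, rfl⟩
      exact ⟨(r.toFun x, s.toFun x), ⟨x, hx, rfl⟩, rfl⟩) (r.inv hg).1 (by
      rintro _ ⟨x, hx, rfl⟩
      have := htr x hx
      rw [r.map_mul hg (h hx), s.map_mul hg' (h' hx)] at this
      rw [smul_mul_assoc, trace_smul, smul_eq_mul]
      exact this)
  exact ⟨P, fun x hx => hP _ ⟨x, hx, rfl⟩⟩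

theorem tower_le {F L : Fld} (h : Tower F L) : F ≤ L := by
  induction h with
  | refl => exact le_rfl
  | tail _ h ih => exact ih.trans h.2.2.1.1

namespace Data

variable {T : GE.Data K}

/-- From an isomorphism on `Gal(Ω/L')` to an isomorphism on `Gal(Ω/L)`. -/
theorem modular_of_finite (hT : T.Facts) {F L L' : Fld} (r : Rep K F) (hr : StronglyIrreducible r)
    (hFL : F ≤ L) (hLL' : FiniteGalois L L') (f : T.Form L) (h : Iso L' r (T.gal f)) :
    ∃ f' : T.Form L, Iso L r (T.gal f') := by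
  obtain ⟨χ, hχ, h1⟩ := twist_of_iso hLL' (resRep r hFL) (T.gal f)
    (hr L' (hFL.trans hLL'.1) hLL'.2.1) h
  obtain ⟨f', h2⟩ := hT.twist L L' f χ hLL' hχ
  exact ⟨f', ConjOn.trans (conjOn_symm h1) h2⟩

/-- Descent along a tower. -/
theorem modular_of_tower (hT : T.Facts) {F₀ F L : Fld} (r : Rep K F₀)
    (hr : StronglyIrreducible r) (h : Tower F L) (f : T.Form L) (hf : Iso L r (T.gal f)) :
    F₀ ≤ F → ∃ f' : T.Form F, Iso F r (T.gal f') := by
  induction h using Relation.ReflTransGen.head_induction_on with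
  | refl => exact fun _ => ⟨f, hf⟩
  | @head F' F₁ hstep _ ih =>
    intro hF'
    have h01 : F₀ ≤ F₁ := hF'.trans hstep.2.2.1.1
    obtain ⟨f₁, P, hP⟩ := ih h01
    obtain ⟨f', hf'⟩ := hT.descent F' F₁ f₁ hstep (by
      intro g hg
      have hg0 : g ∈ Gal F₀ := fix_le hF' hg
      let u : GL (Fin 2) K := ⟨r.toFun g, r.toFun g⁻¹, (r.inv hg0).1, (r.inv hg0).2⟩
      refine ⟨P * u * P⁻¹, fun x hx => ?_⟩
      have hx' := conj_mem hstep.2.2.1 hg hx
      have hx0 : x ∈ Gal F₀ := fix_le h01 hx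
      change (T.gal f₁).toFun (g * x * g⁻¹) = _
      rw [hP _ hx', hP _ hx, r.map_mul (gal_mul hg0 hx0) (gal_inv hg0), r.map_mul hg0 hx0,
        _root_.mul_inv_rev, _root_.mul_inv_rev, inv_inv]
      simp only [Units.val_mul]
      change _ = (P : Mat K) * r.toFun g * ((P⁻¹ : GL (Fin 2) K) : Mat K) *
        ((P : Mat K) * r.toFun x * ((P⁻¹ : GL (Fin 2) K) : Mat K)) *
        ((P : Mat K) * (r.toFun g⁻¹ * ((P⁻¹ : GL (Fin 2) K) : Mat K)))
      have e := inv_mul_unit P
      calc (P : Mat K) * (r.toFun g * r.toFun x * r.toFun g⁻¹) *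
            ((P⁻¹ : GL (Fin 2) K) : Mat K)
          = (P : Mat K) * r.toFun g * 1 * (r.toFun x * 1 *
            (r.toFun g⁻¹ * ((P⁻¹ : GL (Fin 2) K) : Mat K))) := by
            simp only [mul_one, mul_assoc]
        _ = _ := by
            rw [← e]
            simp only [mul_assoc])
    exact modular_of_finite hT r hr hF' hstep.2.2.1 f'
      (ConjOn.trans ⟨P, hP⟩ (conjOn_symm hf'))

/-- **One elliptic curve.** -/
theorem modular_iff (hT : T.Facts) {F : Fld} (hF : CMField F) (A : T.EC F)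
    (hA : ¬ T.CM A) : T.Modular A ↔ T.Approximated A := by
  constructor
  · intro h
    obtain ⟨f, P, hP⟩ := (hT.modular F A hF).1 h
    refine ⟨F, Relation.ReflTransGen.refl, f, 1, one_pos, 1, one_pos,
      Filter.Frequently.of_forall fun x => ?_⟩
    have h1 : T.Agree A f 1 ∩ {w | T.norm w ≤ x} = {w | T.norm w ≤ x} := by
      refine Set.inter_eq_right.2 fun w _ => ?_
      change ((T.rep A).toFun (T.frob w)).trace ^ 1 = ((T.gal f).toFun (T.frob w)).trace ^ 1
      rw [hP _ (hT.frob_mem F w), trace_conj]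
    rw [h1, one_mul]
  · rintro ⟨L, hL, f, m, hm, hf⟩
    have hFL := tower_le hL
    have hr := hT.irreducible F A hA
    obtain ⟨L', hLL', ζ, -, g, hg, htr⟩ := hT.chebotarev F L A f m hFL hm hf
    have hiso : Iso L' (T.rep A) (T.gal f) :=
      iso_of_trace_coset' _ _ (fix_le (hFL.trans hLL'.1)) (fix_le hLL'.1)
        (hr L' (hFL.trans hLL'.1) hLL'.2.1) (fix_le hFL hg) hg ζ htr
    obtain ⟨f', hf'⟩ := modular_of_finite hT (T.rep A) hr hFL hLL' f hiso
    exact (hT.modular F A hF).2 (modular_of_tower hT (T.rep A) hr hL f' hf' le_rfl)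

/-- **All elliptic curves.** -/
theorem all_iff (hT : T.Facts) :
    (∀ F, ImaginaryQuadratic F → ∀ A : T.EC F, ¬ T.CMBase A → T.Modular A) ↔
      ∀ F, ImaginaryQuadratic F → ∀ A : T.EC F, ¬ T.CM A → T.Approximated A := by
  constructor
  · intro h F hF A hA
    exact (modular_iff hT hF.1 A hA).1 (h F hF A fun h' => hA (hT.base F A h'))
  · intro h F hF A hA
    by_cases hCM : T.CM A
    · exact hT.known F A hF hCM hA
    · exact (modular_iff hT hF.1 A hCM).2 (h F hF A hCM)

end Data

end Pool.Agent.Q50.ES.GE
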